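import Mathlib

set_option autoImplicit false
open scoped Classical ComplexConjugate

namespace Pool.Agent.H.MP_42dd51_an

noncomputable abbrev E2 (X : Type) := lp (fun _ : X => ℂ) 2

noncomputable def sg {X : Type} (x : X) : E2 X := lp.single 2 x (1 : ℂ)

theorem sg_apply {X : Type} (x y : X) : sg x y = if y = x then 1 else 0 := by
  unfold sg
  by_cases h : y = x
  · subst h; simp
  · rw [lp.single_apply_ne _ _ _ h]; simp [h]

theorem inner_sg {X : Type} (x : X) (f : E2 X) : inner ℂ (sg x) f = f x := by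
  unfold sg
  rw [lp.inner_single_left]; simp

theorem norm_sg {X : Type} (x : X) : ‖sg x‖ = 1 := by
  unfold sg
  rw [lp.norm_single (by norm_num)]; simp

/-- matrix entry -/
noncomputable def ent {X Y : Type} (a : E2 X →L[ℂ] E2 Y) (y : Y) (x : X) : ℂ := a (sg x) y

theorem ent_ext {X Y : Type} {a b : E2 X →L[ℂ] E2 Y} (h : ∀ y x, ent a y x = ent b y x) :
    a = b := by
  apply lp.ext_continuousLinearMap (by norm_num)
  intro x
  ext y
  exact h y x

theorem ent_le {X Y : Type} (a : E2 X →L[ℂ] E2 Y) (y : Y) (x : X) : ‖ent a y x‖ ≤ ‖a‖ := by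
  have h1 : ‖a (sg x) y‖ ≤ ‖a (sg x)‖ := lp.norm_apply_le_norm (by norm_num) _ _
  have h2 := a.le_opNorm (sg x)
  rw [norm_sg, mul_one] at h2
  exact h1.trans h2

theorem ent_star {X : Type} (a : E2 X →L[ℂ] E2 X) (y x : X) :
    ent (star a) y x = conj (ent a x y) := by
  unfold ent
  rw [← inner_sg, ← inner_sg, ContinuousLinearMap.star_eq_adjoint,
    ContinuousLinearMap.adjoint_inner_right, inner_conj_symm]

theorem sum_sq_le {X : Type} (f : E2 X) (s : Finset X) : ∑ x ∈ s, ‖f x‖ ^ 2 ≤ ‖f‖ ^ 2 := by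
  have := lp.sum_rpow_le_norm_rpow (p := 2) (by norm_num) f s
  simpa using this

theorem mem_of_sum_le {X : Type} (f : X → ℂ) (C : ℝ) (h : ∀ s : Finset X, ∑ x ∈ s, ‖f x‖ ^ 2 ≤ C) :
    Memℓp f 2 := by
  apply memℓp_gen' (C := C)
  intro s
  simpa using h s

theorem norm_le_of_sum_le {X : Type} (f : E2 X) (C : ℝ) (hC : 0 ≤ C)
    (h : ∀ s : Finset X, ∑ x ∈ s, ‖f x‖ ^ 2 ≤ C ^ 2) : ‖f‖ ≤ C := by
  apply lp.norm_le_of_forall_sum_le (by norm_num) hC
  intro s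
  simpa using h s

theorem schur_aux {X Y : Type} (k : Y → X → ℂ) (C : ℕ) (e : ℝ) (he : 0 ≤ e)
    (hk : ∀ y x, ‖k y x‖ ≤ e) (N : Y → Finset X) (hN : ∀ y, (N y).card ≤ C)
    (hc : ∀ x, ∃ s : Finset Y, s.card ≤ C ∧ ∀ y, x ∈ N y → y ∈ s) (f : E2 X) (s : Finset Y) :
    ∑ y ∈ s, ‖∑ x ∈ N y, k y x * f x‖ ^ 2 ≤ (C * e * ‖f‖) ^ 2 := by
  have h1 : ∀ y, ‖∑ x ∈ N y, k y x * f x‖ ^ 2 ≤ C * e ^ 2 * ∑ x ∈ N y, ‖f x‖ ^ 2 := by
    intro y
    have a1 : ‖∑ x ∈ N y, k y x * f x‖ ≤ e * ∑ x ∈ N y, ‖f x‖ := by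
      refine (norm_sum_le _ _).trans ?_
      rw [Finset.mul_sum]
      apply Finset.sum_le_sum
      intro x _
      rw [norm_mul]
      exact mul_le_mul_of_nonneg_right (hk y x) (norm_nonneg _)
    have a2 : (∑ x ∈ N y, ‖f x‖) ^ 2 ≤ (N y).card * ∑ x ∈ N y, ‖f x‖ ^ 2 :=
      sq_sum_le_card_mul_sum_sq
    have a3 : ((N y).card : ℝ) ≤ C := by exact_mod_cast hN y
    have a4 : 0 ≤ ∑ x ∈ N y, ‖f x‖ ^ 2 := Finset.sum_nonneg fun _ _ => sq_nonneg _
    calc ‖∑ x ∈ N y, k y x * f x‖ ^ 2 ≤ (e * ∑ x ∈ N y, ‖f x‖) ^ 2 :=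
          pow_le_pow_left₀ (norm_nonneg _) a1 2
      _ = e ^ 2 * (∑ x ∈ N y, ‖f x‖) ^ 2 := by ring
      _ ≤ e ^ 2 * (C * ∑ x ∈ N y, ‖f x‖ ^ 2) := by
          apply mul_le_mul_of_nonneg_left _ (sq_nonneg _)
          exact a2.trans (mul_le_mul_of_nonneg_right a3 a4)
      _ = _ := by ring
  have h2 : ∑ y ∈ s, ∑ x ∈ N y, ‖f x‖ ^ 2 ≤ C * ‖f‖ ^ 2 := by
    have b1 : ∑ y ∈ s, ∑ x ∈ N y, ‖f x‖ ^ 2 =
        ∑ x ∈ s.biUnion N, ∑ y ∈ s.filter (fun y => x ∈ N y), ‖f x‖ ^ 2 := by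
      apply Finset.sum_comm'
      intro y x
      simp only [Finset.mem_biUnion, Finset.mem_filter]
      constructor
      · rintro ⟨h, h'⟩; exact ⟨⟨h, h'⟩, y, h, h'⟩
      · rintro ⟨⟨h, h'⟩, _⟩; exact ⟨h, h'⟩
    rw [b1]
    calc _ ≤ ∑ x ∈ s.biUnion N, C * ‖f x‖ ^ 2 := by
          apply Finset.sum_le_sum
          intro x _
          rw [Finset.sum_const, nsmul_eq_mul]
          apply mul_le_mul_of_nonneg_right _ (sq_nonneg _)
          obtain ⟨t, ht, ht'⟩ := hc x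
          have : (s.filter (fun y => x ∈ N y)).card ≤ t.card :=
            Finset.card_le_card fun y hy => ht' y (Finset.mem_filter.1 hy).2
          exact_mod_cast this.trans ht
      _ = C * ∑ x ∈ s.biUnion N, ‖f x‖ ^ 2 := by rw [Finset.mul_sum]
      _ ≤ C * ‖f‖ ^ 2 := mul_le_mul_of_nonneg_left (sum_sq_le f _) (Nat.cast_nonneg _)
  calc _ ≤ ∑ y ∈ s, C * e ^ 2 * ∑ x ∈ N y, ‖f x‖ ^ 2 := Finset.sum_le_sum fun y _ => h1 y
    _ = C * e ^ 2 * ∑ y ∈ s, ∑ x ∈ N y, ‖f x‖ ^ 2 := by rw [Finset.mul_sum]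
    _ ≤ C * e ^ 2 * (C * ‖f‖ ^ 2) := mul_le_mul_of_nonneg_left h2 (by positivity)
    _ = _ := by ring

theorem schur {X Y : Type} (k : Y → X → ℂ) (C : ℕ) (e : ℝ) (he : 0 ≤ e)
    (hk : ∀ y x, ‖k y x‖ ≤ e) (N : Y → Finset X) (hN : ∀ y, (N y).card ≤ C)
    (hc : ∀ x, ∃ s : Finset Y, s.card ≤ C ∧ ∀ y, x ∈ N y → y ∈ s) :
    ∃ T : E2 X →L[ℂ] E2 Y, ‖T‖ ≤ C * e ∧ ∀ f y, T f y = ∑ x ∈ N y, k y x * f x := by
  let T0 : E2 X →ₗ[ℂ] E2 Y :=
    { toFun := fun f => ⟨fun y => ∑ x ∈ N y, k y x * f x,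
        mem_of_sum_le _ _ (schur_aux k C e he hk N hN hc f)⟩
      map_add' := by
        intro f g
        ext y
        simp only [lp.coeFn_add, Pi.add_apply, mul_add, Finset.sum_add_distrib]
      map_smul' := by
        intro c f
        ext y
        simp only [lp.coeFn_smul, Pi.smul_apply, smul_eq_mul, RingHom.id_apply, Finset.mul_sum]
        apply Finset.sum_congr rfl
        intro x _
        ring }
  have hb : ∀ f, ‖T0 f‖ ≤ C * e * ‖f‖ := fun f =>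
    norm_le_of_sum_le _ _ (by positivity) (schur_aux k C e he hk N hN hc f)
  exact ⟨T0.mkContinuous _ hb, LinearMap.mkContinuous_norm_le _ (by positivity) hb,
    fun f y => rfl⟩

/-- weighted composition operators -/
theorem wcomp {X Y : Type} (c : Y → ℂ) (e : ℝ) (he : 0 ≤ e) (hc : ∀ y, ‖c y‖ ≤ e) (p : Y → X)
    (hp : Function.Injective p) :
    ∃ T : E2 X →L[ℂ] E2 Y, ∀ f y, T f y = c y * f (p y) := by
  obtain ⟨T, _, hT⟩ := schur (fun y _ => c y) 1 e he (fun y _ => hc y) (fun y => {p y})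
    (fun y => by simp) (by
      intro x
      by_cases h : ∃ y, p y = x
      · obtain ⟨y, rfl⟩ := h
        refine ⟨{y}, by simp, fun y' hy' => ?_⟩
        rw [Finset.mem_singleton] at hy' ⊢
        exact (hp hy').symm
      · refine ⟨∅, by simp, fun y' hy' => ?_⟩
        rw [Finset.mem_singleton] at hy'
        exact (h ⟨y', hy'.symm⟩).elim)
  exact ⟨T, fun f y => by rw [hT]; simp⟩

/-- slice -/
noncomputable def slice {X F : Type} (f : E2 (X × F)) (g : F) : E2 X :=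
  ⟨fun x => f (x, g), mem_of_sum_le _ (‖f‖ ^ 2) (by
    intro s
    have := sum_sq_le f (s.map ⟨fun x => (x, g), fun a b h => (Prod.mk.inj h).1⟩)
    rw [Finset.sum_map] at this
    exact this)⟩

theorem slice_apply {X F : Type} (f : E2 (X × F)) (g : F) (x : X) : slice f g x = f (x, g) := rfl

theorem sum_slice_le {X F : Type} (f : E2 (X × F)) (t : Finset F) :
    ∑ g ∈ t, ‖slice f g‖ ^ 2 ≤ ‖f‖ ^ 2 := by
  have h1 : ∀ g, HasSum (fun x => ‖f (x, g)‖ ^ 2) (‖slice f g‖ ^ 2) := by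
    intro g
    have := lp.hasSum_norm (p := 2) (by norm_num) (slice f g)
    simpa [slice_apply] using this
  have h2 := hasSum_sum (s := t) fun g _ => h1 g
  apply hasSum_le_of_sum_le h2
  intro s
  have := sum_sq_le f (s ×ˢ t)
  rw [Finset.sum_product] at this
  exact this

theorem amp_aux {X F : Type} (a : E2 X →L[ℂ] E2 X) (f : E2 (X × F)) (s : Finset (X × F)) :
    ∑ y ∈ s, ‖a (slice f y.2) y.1‖ ^ 2 ≤ (‖a‖ * ‖f‖) ^ 2 := by
  have hs : s ⊆ s.image Prod.fst ×ˢ s.image Prod.snd := Finset.subset_product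
  calc _ ≤ ∑ y ∈ s.image Prod.fst ×ˢ s.image Prod.snd, ‖a (slice f y.2) y.1‖ ^ 2 :=
        Finset.sum_le_sum_of_subset_of_nonneg hs fun _ _ _ => sq_nonneg _
    _ = ∑ g ∈ s.image Prod.snd, ∑ x ∈ s.image Prod.fst, ‖a (slice f g) x‖ ^ 2 := by
        rw [Finset.sum_product_right]
    _ ≤ ∑ g ∈ s.image Prod.snd, ‖a‖ ^ 2 * ‖slice f g‖ ^ 2 := by
        apply Finset.sum_le_sum
        intro g _
        refine (sum_sq_le _ _).trans ?_
        rw [← mul_pow]
        exact pow_le_pow_left₀ (norm_nonneg _) (a.le_opNorm _) 2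
    _ = ‖a‖ ^ 2 * ∑ g ∈ s.image Prod.snd, ‖slice f g‖ ^ 2 := by rw [Finset.mul_sum]
    _ ≤ ‖a‖ ^ 2 * ‖f‖ ^ 2 := mul_le_mul_of_nonneg_left (sum_slice_le f _) (sq_nonneg _)
    _ = _ := by ring

noncomputable def amp0 {X : Type} (F : Type) (a : E2 X →L[ℂ] E2 X) : E2 (X × F) →ₗ[ℂ] E2 (X × F) where
  toFun := fun f => ⟨fun y => a (slice f y.2) y.1, mem_of_sum_le _ _ (amp_aux a f)⟩
  map_add' := by
    intro f f'
    ext y
    have : slice (f + f') y.2 = slice f y.2 + slice f' y.2 := by ext x; rfl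
    simp only [lp.coeFn_add, Pi.add_apply, this, map_add]
  map_smul' := by
    intro c f
    ext y
    have : slice (c • f) y.2 = c • slice f y.2 := by ext x; rfl
    simp only [lp.coeFn_smul, Pi.smul_apply, this, map_smul, RingHom.id_apply]

theorem amp0_le {X : Type} (F : Type) (a : E2 X →L[ℂ] E2 X) (f : E2 (X × F)) :
    ‖amp0 F a f‖ ≤ ‖a‖ * ‖f‖ :=
  norm_le_of_sum_le _ _ (by positivity) (amp_aux a f)

noncomputable def amp {X : Type} (F : Type) (a : E2 X →L[ℂ] E2 X) : E2 (X × F) →L[ℂ] E2 (X × F) :=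
  (amp0 F a).mkContinuous _ (amp0_le F a)

theorem amp_apply {X F : Type} (a : E2 X →L[ℂ] E2 X) (f : E2 (X × F)) (y : X × F) :
    amp F a f y = a (slice f y.2) y.1 := rfl

theorem amp_norm {X F : Type} (a : E2 X →L[ℂ] E2 X) : ‖amp F a‖ ≤ ‖a‖ :=
  LinearMap.mkContinuous_norm_le _ (norm_nonneg _) _

theorem slice_sg {X F : Type} (x : X) (g g' : F) :
    slice (sg (x, g)) g' = if g' = g then sg x else 0 := by
  ext y
  rw [slice_apply, sg_apply]
  by_cases h : g' = g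
  · simp [h, sg_apply]
  · simp [h]

theorem ent_amp {X F : Type} (a : E2 X →L[ℂ] E2 X) (y y' : X × F) :
    ent (amp F a) y y' = if y.2 = y'.2 then ent a y.1 y'.1 else 0 := by
  obtain ⟨x', g'⟩ := y'
  unfold ent
  rw [amp_apply, slice_sg]
  split_ifs with h
  · rfl
  · simp

theorem amp_mul {X F : Type} (a b : E2 X →L[ℂ] E2 X) : amp F (a * b) = amp F a * amp F b := by
  ext f y
  have : slice (amp F b f) y.2 = b (slice f y.2) := by ext x; rfl
  show (a * b) (slice f y.2) y.1 = a (slice (amp F b f) y.2) y.1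
  rw [this]; rfl

theorem amp_add {X F : Type} (a b : E2 X →L[ℂ] E2 X) : amp F (a + b) = amp F a + amp F b := by
  apply ent_ext
  intro y y'
  show _ = ent (amp F a) y y' + ent (amp F b) y y'
  simp only [ent_amp]
  split_ifs
  · rfl
  · simp

theorem amp_smul {X F : Type} (c : ℂ) (a : E2 X →L[ℂ] E2 X) : amp F (c • a) = c • amp F a := by
  apply ent_ext
  intro y y'
  show _ = c * ent (amp F a) y y'
  simp only [ent_amp]
  split_ifs
  · rfl
  · simp

theorem amp_star {X F : Type} (a : E2 X →L[ℂ] E2 X) : amp F (star a) = star (amp F a) := by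
  apply ent_ext
  intro y y'
  rw [ent_star, ent_amp, ent_amp, ent_star]
  by_cases h : y.2 = y'.2
  · simp [h]
  · simp [h, Ne.symm h]

theorem amp_one {X F : Type} : amp F (1 : E2 X →L[ℂ] E2 X) = 1 := by
  ext f y
  rfl

end Pool.Agent.H.MP_42dd51_an
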