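import Pool.Agent.H.MP_42dd51_an.A

set_option autoImplicit false
open scoped Classical ComplexConjugate

namespace Pool.Agent.H.MP_42dd51_an

variable {X F : Type}

def IsU (σ : X → F → F) (z : X → ℂ) (U : E2 (X × F) →L[ℂ] E2 (X × F)) : Prop :=
  ∀ f y, U f y = (1 + z y.1) / 2 * f y + (1 - z y.1) / 2 * f (y.1, σ y.1 y.2)

theorem exists_U (σ : X → F → F) (hσ : ∀ x g, σ x (σ x g) = g) (z : X → ℂ)
    (hz : ∀ x, ‖z x‖ = 1) : ∃ U, IsU σ z U := by
  have h1 : ∀ y : X × F, ‖(1 + z y.1) / 2‖ ≤ 1 := by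
    intro y
    rw [norm_div]
    have := norm_add_le 1 (z y.1)
    rw [hz, norm_one] at this
    simp only [Complex.norm_ofNat]
    linarith
  have h2 : ∀ y : X × F, ‖(1 - z y.1) / 2‖ ≤ 1 := by
    intro y
    rw [norm_div]
    have := norm_sub_le 1 (z y.1)
    rw [hz, norm_one] at this
    simp only [Complex.norm_ofNat]
    linarith
  obtain ⟨A, hA⟩ := wcomp _ 1 zero_le_one h1 id Function.injective_id
  obtain ⟨B, hB⟩ := wcomp _ 1 zero_le_one h2 (fun y : X × F => (y.1, σ y.1 y.2)) (by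
    rintro ⟨x, g⟩ ⟨x', g'⟩ h
    simp only [Prod.mk.injEq] at h
    obtain ⟨rfl, h⟩ := h
    have := congrArg (σ x) h
    rw [hσ, hσ] at this
    rw [this])
  refine ⟨A + B, fun f y => ?_⟩
  show A f y + B f y = _
  rw [hA, hB]; rfl

theorem mul_conj_one {w : ℂ} (h : ‖w‖ = 1) : w * conj w = 1 := by
  rw [Complex.mul_conj, Complex.normSq_eq_norm_sq, h]; simp

theorem IsU.mul {σ : X → F → F} (hσ : ∀ x g, σ x (σ x g) = g) {z z' : X → ℂ}
    (hz : ∀ x, z x * z' x = 1) {U V : E2 (X × F) →L[ℂ] E2 (X × F)} (hU : IsU σ z U)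
    (hV : IsU σ z' V) : U * V = 1 := by
  ext f y
  show U (V f) y = f y
  rw [hU, hV, hV]
  simp only [hσ]
  have := hz y.1
  linear_combination (f y / 2 - f (y.1, σ y.1 y.2) / 2) * this

theorem IsU.star {σ : X → F → F} (hσ : ∀ x g, σ x (σ x g) = g) {z : X → ℂ}
    (hz : ∀ x, ‖z x‖ = 1) {U : E2 (X × F) →L[ℂ] E2 (X × F)} (hU : IsU σ z U) :
    IsU σ (fun x => conj (z x)) (star U) := by
  obtain ⟨V, hV⟩ := exists_U σ hσ (fun x => conj (z x)) (fun x => by simp [hz])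
  have : Star.star U = V := by
    apply ent_ext
    rintro ⟨x, g⟩ ⟨x', g'⟩
    rw [ent_star]
    unfold ent
    rw [hU, hV]
    simp only [sg_apply, Prod.mk.injEq]
    by_cases h : x = x'
    · subst h
      have e1 : (σ x g' = g) ↔ (σ x g = g') := by
        constructor
        · rintro rfl; exact hσ _ _
        · rintro rfl; exact hσ _ _
      have e2 : (g' = g) ↔ (g = g') := eq_comm
      simp only [e1, e2, true_and]
      split_ifs <;> simp [map_ofNat]
    · simp [h, Ne.symm h]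
  rw [this]; exact hV

noncomputable def cf (σ : X → F → F) (z : X → ℂ) (y y' : X × F) : ℂ :=
  (1 + z y.1) / 2 * ((1 + conj (z y'.1)) / 2 * (if y.2 = y'.2 then 1 else 0) +
      (1 - conj (z y'.1)) / 2 * (if y.2 = σ y'.1 y'.2 then 1 else 0)) +
    (1 - z y.1) / 2 * ((1 + conj (z y'.1)) / 2 * (if σ y.1 y.2 = y'.2 then 1 else 0) +
      (1 - conj (z y'.1)) / 2 * (if σ y.1 y.2 = σ y'.1 y'.2 then 1 else 0))

theorem IsU.sg {σ : X → F → F} (hσ : ∀ x g, σ x (σ x g) = g) {z : X → ℂ}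
    {U : E2 (X × F) →L[ℂ] E2 (X × F)} (hU : IsU σ z U) (y : X × F) :
    U (sg y) = ((1 + z y.1) / 2) • sg y + ((1 - z y.1) / 2) • sg (y.1, σ y.1 y.2) := by
  obtain ⟨x, g⟩ := y
  ext ⟨x', g'⟩
  rw [hU]
  simp only [lp.coeFn_add, lp.coeFn_smul, Pi.add_apply, Pi.smul_apply, smul_eq_mul, sg_apply,
    Prod.mk.injEq]
  by_cases h : x' = x
  · subst h
    have e1 : (σ x' g' = g) ↔ (g' = σ x' g) := by
      constructor
      · rintro rfl; exact (hσ _ _).symm
      · rintro rfl; exact hσ _ _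
    simp only [e1, true_and]
  · simp [h]

noncomputable def Phi (U : E2 (X × F) →L[ℂ] E2 (X × F)) (a : E2 X →L[ℂ] E2 X) :
    E2 (X × F) →L[ℂ] E2 (X × F) := U * amp F a * star U

theorem ent_conj {σ : X → F → F} (hσ : ∀ x g, σ x (σ x g) = g) {z : X → ℂ}
    (hz : ∀ x, ‖z x‖ = 1) {U : E2 (X × F) →L[ℂ] E2 (X × F)} (hU : IsU σ z U)
    (b : E2 (X × F) →L[ℂ] E2 (X × F)) (y y' : X × F) :
    ent (U * b * star U) y y' =
      (1 + z y.1) / 2 * ((1 + conj (z y'.1)) / 2 * ent b y y' +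
        (1 - conj (z y'.1)) / 2 * ent b y (y'.1, σ y'.1 y'.2)) +
      (1 - z y.1) / 2 * ((1 + conj (z y'.1)) / 2 * ent b (y.1, σ y.1 y.2) y' +
        (1 - conj (z y'.1)) / 2 * ent b (y.1, σ y.1 y.2) (y'.1, σ y'.1 y'.2)) := by
  show U (b (star U (sg y'))) y = _
  rw [(hU.star hσ hz).sg hσ, hU, map_add, map_smul, map_smul]
  rfl

theorem ent_Phi {σ : X → F → F} (hσ : ∀ x g, σ x (σ x g) = g) {z : X → ℂ}
    (hz : ∀ x, ‖z x‖ = 1) {U : E2 (X × F) →L[ℂ] E2 (X × F)} (hU : IsU σ z U)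
    (a : E2 X →L[ℂ] E2 X) (y y' : X × F) :
    ent (Phi U a) y y' = ent a y.1 y'.1 * cf σ z y y' := by
  unfold Phi cf
  rw [ent_conj hσ hz hU]
  simp only [ent_amp]
  split_ifs <;> ring

theorem IsU.mul_star {σ : X → F → F} (hσ : ∀ x g, σ x (σ x g) = g) {z : X → ℂ}
    (hz : ∀ x, ‖z x‖ = 1) {U : E2 (X × F) →L[ℂ] E2 (X × F)} (hU : IsU σ z U) :
    U * Star.star U = 1 := IsU.mul hσ (fun x => mul_conj_one (hz x)) hU (hU.star hσ hz)

theorem IsU.star_mul {σ : X → F → F} (hσ : ∀ x g, σ x (σ x g) = g) {z : X → ℂ}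
    (hz : ∀ x, ‖z x‖ = 1) {U : E2 (X × F) →L[ℂ] E2 (X × F)} (hU : IsU σ z U) :
    Star.star U * U = 1 :=
  IsU.mul hσ (fun x => by rw [mul_comm]; exact mul_conj_one (hz x)) (hU.star hσ hz) hU

theorem Phi_mul {U : E2 (X × F) →L[ℂ] E2 (X × F)} (h : star U * U = 1) (a b : E2 X →L[ℂ] E2 X) :
    Phi U (a * b) = Phi U a * Phi U b := by
  unfold Phi
  rw [amp_mul]
  calc _ = U * amp F a * (star U * U) * amp F b * star U := by rw [h]; noncomm_ring
    _ = _ := by noncomm_ring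

theorem Phi_add (U : E2 (X × F) →L[ℂ] E2 (X × F)) (a b : E2 X →L[ℂ] E2 X) :
    Phi U (a + b) = Phi U a + Phi U b := by
  unfold Phi
  rw [amp_add]; noncomm_ring

theorem Phi_smul (U : E2 (X × F) →L[ℂ] E2 (X × F)) (c : ℂ) (a : E2 X →L[ℂ] E2 X) :
    Phi U (c • a) = c • Phi U a := by
  unfold Phi
  rw [amp_smul, mul_smul_comm, smul_mul_assoc]

theorem Phi_star (U : E2 (X × F) →L[ℂ] E2 (X × F)) (a : E2 X →L[ℂ] E2 X) :
    Phi U (star a) = star (Phi U a) := by
  unfold Phi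
  rw [amp_star, star_mul, star_mul, star_star, mul_assoc]

theorem Phi_one {U : E2 (X × F) →L[ℂ] E2 (X × F)} (h : U * star U = 1) :
    Phi U (1 : E2 X →L[ℂ] E2 X) = 1 := by
  unfold Phi
  rw [amp_one, mul_one, h]

theorem Phi_unconj {U : E2 (X × F) →L[ℂ] E2 (X × F)} (h : star U * U = 1) (a : E2 X →L[ℂ] E2 X) :
    star U * Phi U a * U = amp F a := by
  unfold Phi
  calc _ = (star U * U) * amp F a * (star U * U) := by noncomm_ring
    _ = _ := by rw [h]; simp

theorem Phi_inj [Nonempty F] {U : E2 (X × F) →L[ℂ] E2 (X × F)} (h : star U * U = 1) :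
    Function.Injective (Phi U) := by
  intro a b hab
  have : amp F a = amp F b := by rw [← Phi_unconj h, ← Phi_unconj h, hab]
  apply ent_ext
  intro x x'
  obtain ⟨g⟩ := ‹Nonempty F›
  have h1 := ent_amp a (x, g) (x', g)
  have h2 := ent_amp b (x, g) (x', g)
  rw [this, h2] at h1
  simpa using h1.symm

noncomputable def PhiL (U : E2 (X × F) →L[ℂ] E2 (X × F)) :
    (E2 X →L[ℂ] E2 X) →ₗ[ℂ] (E2 (X × F) →L[ℂ] E2 (X × F)) where
  toFun := Phi U
  map_add' := Phi_add U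
  map_smul' := Phi_smul U

theorem Phi_cont (U : E2 (X × F) →L[ℂ] E2 (X × F)) : Continuous (Phi U) := by
  have : ∀ a, ‖PhiL U a‖ ≤ (‖U‖ * ‖star U‖) * ‖a‖ := by
    intro a
    show ‖U * amp F a * star U‖ ≤ _
    calc _ ≤ ‖U‖ * ‖amp F a‖ * ‖star U‖ :=
          (norm_mul_le _ _).trans (mul_le_mul_of_nonneg_right (norm_mul_le _ _) (norm_nonneg _))
      _ ≤ ‖U‖ * ‖a‖ * ‖star U‖ := by gcongr; exact amp_norm a
      _ = _ := by ring
  exact ((PhiL U).mkContinuous _ this).continuous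

noncomputable def nb (σ : X → F → F) (y : X × F) (x' : X) : Finset (X × F) :=
  {(x', y.2), (x', σ x' y.2), (x', σ y.1 y.2), (x', σ x' (σ y.1 y.2))}

theorem nb_card (σ : X → F → F) (y : X × F) (x' : X) : (nb σ y x').card ≤ 4 := Finset.card_le_four

theorem nb_symm {σ : X → F → F} (hσ : ∀ x g, σ x (σ x g) = g) {y y' : X × F} {x' : X}
    (h : y' ∈ nb σ y x') : y'.1 = x' ∧ y ∈ nb σ y' y.1 := by
  obtain ⟨x, g⟩ := y
  simp only [nb, Finset.mem_insert, Finset.mem_singleton] at h ⊢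
  rcases h with rfl | rfl | rfl | rfl <;> simp [hσ]

theorem cf_zero {σ : X → F → F} (hσ : ∀ x g, σ x (σ x g) = g) (z : X → ℂ) {y y' : X × F}
    (h : y' ∉ nb σ y y'.1) : cf σ z y y' = 0 := by
  obtain ⟨x, g⟩ := y
  obtain ⟨x', g'⟩ := y'
  simp only [nb, Finset.mem_insert, Finset.mem_singleton, Prod.mk.injEq, true_and, not_or] at h
  obtain ⟨h1, h2, h3, h4⟩ := h
  unfold cf
  rw [if_neg (fun h => h1 h.symm), if_neg, if_neg (fun h => h3 h.symm), if_neg]
  · simp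
  · intro h; apply h4; dsimp only at h; rw [h, hσ]
  · intro h; apply h2; dsimp only at h; rw [h, hσ]

theorem approx [MetricSpace X] {σ : X → F → F} (hσ : ∀ x g, σ x (σ x g) = g) {z : X → ℂ}
    (hz : ∀ x, ‖z x‖ = 1) {U : E2 (X × F) →L[ℂ] E2 (X × F)} (hU : IsU σ z U)
    (hX : ∀ r : ℝ, ∃ C : ℕ, ∀ x : X, ∃ s : Finset X, s.card ≤ C ∧ ∀ x', dist x x' ≤ r → x' ∈ s)
    (dY : X × F → X × F → ℝ)
    (hd : ∀ r e : ℝ, 0 < e → ∃ s : ℝ, ∀ y y' : X × F, dist y.1 y'.1 ≤ r →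
      dY y y' ≤ s ∨ ‖cf σ z y y'‖ ≤ e)
    (a : E2 X →L[ℂ] E2 X) (r : ℝ) (ha : ∀ x x', r < dist x x' → ent a x x' = 0) :
    Phi U a ∈ closure {b : E2 (X × F) →L[ℂ] E2 (X × F) |
      ∃ s : ℝ, ∀ y y', s < dY y y' → ent b y y' = 0} := by
  rw [Metric.mem_closure_iff]
  intro e he
  obtain ⟨C, hC⟩ := hX r
  choose S hS hS' using hC
  obtain ⟨δ, hδ, hδ'⟩ : ∃ δ : ℝ, 0 < δ ∧ ((C * 4 : ℕ) : ℝ) * (‖a‖ * δ) < e := by
    refine ⟨e / (((C * 4 : ℕ) : ℝ) * ‖a‖ + 1), by positivity, ?_⟩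
    rw [← mul_assoc, ← mul_div_assoc, div_lt_iff₀ (by positivity)]
    nlinarith
  obtain ⟨s, hs⟩ := hd r δ hδ
  let N : X × F → Finset (X × F) := fun y =>
    ((S y.1).filter (fun x' => dist y.1 x' ≤ r)).biUnion (nb σ y)
  have hN : ∀ y, (N y).card ≤ C * 4 := by
    intro y
    refine (Finset.card_biUnion_le_card_mul _ _ 4 (fun x _ => nb_card σ y x)).trans ?_
    exact Nat.mul_le_mul_right _ ((Finset.card_filter_le _ _).trans (hS _))
  obtain ⟨T, hT, hT'⟩ := schur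
    (fun y y' => if s < dY y y' then ent (Phi U a) y y' else 0) (C * 4) (‖a‖ * δ) (by positivity)
    (by
      intro y y'
      split_ifs with h
      · rw [ent_Phi hσ hz hU]
        by_cases h' : dist y.1 y'.1 ≤ r
        · rcases hs y y' h' with h2 | h2
          · linarith
          · rw [norm_mul]
            exact mul_le_mul (ent_le _ _ _) h2 (norm_nonneg _) (norm_nonneg _)
        · rw [ha _ _ (not_le.1 h')]; simp; positivity
      · simp; positivity) N hN (by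
      intro y'
      refine ⟨N y', hN y', fun y hy => ?_⟩
      simp only [N, Finset.mem_biUnion, Finset.mem_filter] at hy ⊢
      obtain ⟨x', ⟨_, h2⟩, h3⟩ := hy
      obtain ⟨rfl, h4⟩ := nb_symm hσ h3
      rw [dist_comm] at h2
      exact ⟨y.1, ⟨hS' _ _ h2, h2⟩, h4⟩)
  refine ⟨Phi U a - T, ⟨s, fun y y' h => ?_⟩, ?_⟩
  · show ent (Phi U a) y y' - T (sg y') y = 0
    rw [hT']
    simp only [sg_apply, mul_ite, mul_one, mul_zero, Finset.sum_ite_eq']
    split_ifs with h1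
    · simp
    · rw [ent_Phi hσ hz hU]
      by_cases h' : dist y.1 y'.1 ≤ r
      · rw [cf_zero hσ]
        · simp
        · intro h2
          apply h1
          simp only [N, Finset.mem_biUnion, Finset.mem_filter]
          exact ⟨y'.1, ⟨hS' _ _ h', h'⟩, h2⟩
      · rw [ha _ _ (not_le.1 h')]; simp
  · rw [dist_eq_norm, sub_sub_cancel]
    exact hT.trans_lt hδ'

theorem Phi_compact [Fintype F] (U : E2 (X × F) →L[ℂ] E2 (X × F)) (a : E2 X →L[ℂ] E2 X)
    (ha : IsCompactOperator a) : IsCompactOperator (Phi U a) := by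
  have hJ : ∀ g : F, ∃ T : E2 (X × F) →L[ℂ] E2 X, ∀ f x, T f x = 1 * f (x, g) := fun g =>
    wcomp (fun _ => 1) 1 zero_le_one (by simp) (fun x => (x, g)) (fun a b h => (Prod.mk.inj h).1)
  choose J hJ using hJ
  have hI : ∀ g : F, ∃ T : E2 X →L[ℂ] E2 (X × F), ∀ f y, T f y = if y.2 = g then f y.1 else 0 := by
    intro g
    obtain ⟨T, _, hT⟩ := schur (fun (y : X × F) (_ : X) => (1 : ℂ)) 1 1 zero_le_one (by simp)
      (fun y => if y.2 = g then {y.1} else ∅) (fun y => by split_ifs <;> simp) (by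
        intro x
        refine ⟨{(x, g)}, by simp, fun y hy => ?_⟩
        split_ifs at hy with h
        · rw [Finset.mem_singleton] at hy ⊢
          rw [hy, ← h]
        · simp at hy)
    refine ⟨T, fun f y => ?_⟩
    rw [hT]
    split_ifs <;> simp
  choose I hI using hI
  have key : amp F a = ∑ g : F, (I g).comp (a.comp (J g)) := by
    ext f y
    rw [amp_apply, _root_.sum_apply, lp.coeFn_sum, Finset.sum_apply]
    simp only [ContinuousLinearMap.comp_apply, hI, Finset.sum_ite_eq, Finset.mem_univ, if_true]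
    have : slice f y.2 = J y.2 f := by ext x; rw [hJ, slice_apply, one_mul]
    rw [this]
  have h1 : IsCompactOperator (amp F a) := by
    rw [key]
    have : ∀ t : Finset F, IsCompactOperator (∑ g ∈ t, (I g).comp (a.comp (J g)) :
        E2 (X × F) →L[ℂ] E2 (X × F)) := by
      intro t
      induction t using Finset.induction_on with
      | empty => simpa using isCompactOperator_zero
      | insert g t hg ih =>
        rw [Finset.sum_insert hg]
        exact IsCompactOperator.add ((ha.comp_clm (J g)).clm_comp (I g)) ih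
    exact this _
  exact (h1.comp_clm (star U)).clm_comp U

end Pool.Agent.H.MP_42dd51_an
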