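import Pool.Agent.H.MP_42dd51_an.B

set_option autoImplicit false
open scoped Classical ComplexConjugate

namespace Pool.Agent.H.MP_42dd51_an

variable {X F : Type}

def FPs (X : Type) (d : X → X → ℝ) : Set (E2 X →L[ℂ] E2 X) :=
  {a | ∃ r : ℝ, ∀ x x', r < d x x' → ent a x x' = 0}

theorem ent_mul (a b : E2 X →L[ℂ] E2 X) (x x' : X) :
    ent (a * b) x x' = ∑' y, ent a x y * ent b y x' := by
  have : ent (a * b) x x' = inner ℂ (star a (sg x)) (b (sg x')) := by
    rw [ContinuousLinearMap.star_eq_adjoint, ContinuousLinearMap.adjoint_inner_left, inner_sg]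
    rfl
  rw [this, lp.inner_eq_tsum]
  congr 1
  ext y
  have h := ent_star a y x
  unfold ent at h ⊢
  rw [h]
  simp [mul_comm]

theorem adjoin_sub [MetricSpace X] {a : E2 X →L[ℂ] E2 X}
    (ha : a ∈ StarAlgebra.adjoin ℂ (FPs X dist)) : a ∈ FPs X dist := by
  induction ha using StarAlgebra.adjoin_induction with
  | mem x hx => exact hx
  | algebraMap c =>
    refine ⟨0, fun x x' h => ?_⟩
    have : x ≠ x' := dist_pos.1 h
    rw [Algebra.algebraMap_eq_smul_one]
    show c * sg x' x = 0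
    rw [sg_apply, if_neg this, mul_zero]
  | add a b _ _ ha hb =>
    obtain ⟨r, hr⟩ := ha
    obtain ⟨s, hs⟩ := hb
    refine ⟨max r s, fun x x' h => ?_⟩
    show ent a x x' + ent b x x' = 0
    rw [hr _ _ ((le_max_left _ _).trans_lt h), hs _ _ ((le_max_right _ _).trans_lt h), add_zero]
  | mul a b _ _ ha hb =>
    obtain ⟨r, hr⟩ := ha
    obtain ⟨s, hs⟩ := hb
    refine ⟨r + s, fun x x' h => ?_⟩
    rw [ent_mul]
    have : ∀ y, ent a x y * ent b y x' = 0 := by
      intro y
      by_cases h1 : r < dist x y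
      · rw [hr _ _ h1, zero_mul]
      · have := dist_triangle x y x'
        rw [hs y x' (by linarith [not_lt.1 h1]), mul_zero]
    simp [this]
  | star a _ ha =>
    obtain ⟨r, hr⟩ := ha
    refine ⟨r, fun x x' h => ?_⟩
    rw [ent_star, hr _ _ (by rwa [dist_comm]), map_zero]

theorem roe_iff [MetricSpace X] (a : E2 X →L[ℂ] E2 X) :
    a ∈ (StarAlgebra.adjoin ℂ (FPs X dist)).topologicalClosure ↔ a ∈ closure (FPs X dist) := by
  constructor
  · intro h
    exact closure_mono (fun b hb => adjoin_sub hb) h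
  · intro h
    exact closure_mono (StarAlgebra.subset_adjoin ℂ _) h

theorem Phi_closure {U : E2 (X × F) →L[ℂ] E2 (X × F)} (S : Set (E2 X →L[ℂ] E2 X))
    (T : Set (E2 (X × F) →L[ℂ] E2 (X × F))) (h : ∀ a ∈ S, Phi U a ∈ closure T) :
    ∀ a ∈ closure S, Phi U a ∈ closure T := by
  intro a ha
  have := map_mem_closure (Phi_cont U) ha h
  rwa [closure_closure] at this

theorem exists_hom [MetricSpace X] [Nonempty F] {U : E2 (X × F) →L[ℂ] E2 (X × F)}
    (hU : star U * U = 1) (S : Set (E2 X →L[ℂ] E2 X)) (hS : S = FPs X dist)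
    (T : Set (E2 (X × F) →L[ℂ] E2 (X × F))) (h : ∀ a ∈ S, Phi U a ∈ closure T) :
    ∃ φ : (StarAlgebra.adjoin ℂ S).topologicalClosure →⋆ₙₐ[ℂ]
      (StarAlgebra.adjoin ℂ T).topologicalClosure, Function.Injective φ ∧
      ∀ a, (φ a : E2 (X × F) →L[ℂ] E2 (X × F)) = Phi U a := by
  subst hS
  have hm : ∀ a : (StarAlgebra.adjoin ℂ (FPs X dist)).topologicalClosure,
      Phi U a ∈ (StarAlgebra.adjoin ℂ T).topologicalClosure := fun a =>
    closure_mono (StarAlgebra.subset_adjoin ℂ _) (Phi_closure _ _ h a ((roe_iff _).1 a.2))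
  refine ⟨{ toFun := fun a => ⟨Phi U a, hm a⟩
            map_smul' := fun c a => Subtype.ext (Phi_smul U c a)
            map_zero' := Subtype.ext ((PhiL U).map_zero)
            map_add' := fun a b => Subtype.ext (Phi_add U a b)
            map_mul' := fun a b => Subtype.ext (Phi_mul hU a b)
            map_star' := fun a => Subtype.ext (Phi_star U a) }, ?_, fun a => rfl⟩
  intro a b hab
  exact Subtype.ext (Phi_inj hU (congrArg Subtype.val hab))

theorem decay (d : X → X → ℝ) {p : E2 X →L[ℂ] E2 X} (hp : p ∈ closure (FPs X d)) (e : ℝ)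
    (he : 0 < e) : ∃ s : ℝ, ∀ x x', s < d x x' → ‖ent p x x'‖ ≤ e := by
  obtain ⟨b, ⟨s, hs⟩, hb⟩ := Metric.mem_closure_iff.1 hp e he
  refine ⟨s, fun x x' h => ?_⟩
  have h1 : ent (p - b) x x' = ent p x x' - ent b x x' := rfl
  rw [hs _ _ h, sub_zero] at h1
  rw [← h1]
  rw [dist_eq_norm] at hb
  exact (ent_le _ _ _).trans hb.le

/-- matrix units -/
noncomputable def mu (x x' : X) : E2 X →L[ℂ] E2 X := (innerSL ℂ (sg x')).smulRight (sg x)

theorem mu_apply (x x' : X) (f : E2 X) : mu x x' f = f x' • sg x := by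
  unfold mu
  rw [ContinuousLinearMap.smulRight_apply, innerSL_apply_apply, inner_sg]

theorem ent_mu (x x' y y' : X) : ent (mu x x') y y' = if y = x ∧ y' = x' then 1 else 0 := by
  unfold ent
  rw [mu_apply]
  simp only [lp.coeFn_smul, Pi.smul_apply, smul_eq_mul, sg_apply]
  have e : (x' = y') ↔ (y' = x') := eq_comm
  simp only [e]
  by_cases h1 : y = x <;> by_cases h2 : y' = x' <;> simp [h1, h2]

theorem mu_mem [MetricSpace X] (x x' : X) : mu x x' ∈ FPs X dist := by
  refine ⟨dist x x', fun y y' h => ?_⟩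
  rw [ent_mu, if_neg]
  rintro ⟨rfl, rfl⟩
  exact lt_irrefl _ h

theorem amp_mu_sg (x x' : X) (g : F) : amp F (mu x x') (sg (x', g)) = sg (x, g) := by
  ext ⟨y, h⟩
  have := ent_amp (F := F) (mu x x') (y, h) (x', g)
  unfold ent at this
  rw [this, sg_apply]
  have h2 := ent_mu x x' y x'
  unfold ent at h2
  rw [h2]
  by_cases h1 : y = x <;> by_cases h3 : h = g <;> simp [h1, h3]

theorem comm_ent {q : E2 (X × F) →L[ℂ] E2 (X × F)}
    (hq : ∀ x x', q * amp F (mu x x') = amp F (mu x x') * q) (x0 : X) (y y' : X × F) :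
    ent q y y' = if y.1 = y'.1 then ent q (x0, y.2) (x0, y'.2) else 0 := by
  obtain ⟨x, g⟩ := y
  obtain ⟨x', g'⟩ := y'
  have h1 : q (amp F (mu x' x0) (sg (x0, g'))) (x, g) = amp F (mu x' x0) (q (sg (x0, g'))) (x, g) :=
    congrArg (fun T : E2 (X × F) →L[ℂ] E2 (X × F) => T (sg (x0, g')) (x, g)) (hq x' x0)
  rw [amp_mu_sg, amp_apply, mu_apply] at h1
  unfold ent
  rw [h1]
  simp only [lp.coeFn_smul, Pi.smul_apply, smul_eq_mul, sg_apply, slice_apply]
  split_ifs <;> simp

theorem not_compact (K : E2 X →L[ℂ] E2 X) (v : ℕ → X) (hv : Function.Injective v)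
    (hK : ∀ n, K (sg (v n)) = sg (v n)) : ¬ IsCompactOperator K := by
  intro h
  obtain ⟨C, hC, hC'⟩ := IsCompactOperator.image_closedBall_subset_compact
    (f := (K : E2 X →ₗ[ℂ] E2 X)) h 1
  have hm : ∀ n, sg (v n) ∈ C := fun n =>
    hC' ⟨sg (v n), by simp [norm_sg], hK n⟩
  obtain ⟨l, _, φ, hφ, hl⟩ := hC.tendsto_subseq hm
  obtain ⟨N, hN⟩ := Metric.cauchySeq_iff.1 hl.cauchySeq 1 one_pos
  have h1 := hN N le_rfl (N + 1) (Nat.le_succ _)
  rw [dist_eq_norm] at h1
  have h2 := lp.norm_apply_le_norm (p := 2) (by norm_num)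
    (sg (v (φ N)) - sg (v (φ (N + 1)))) (v (φ N))
  have h3 : v (φ N) ≠ v (φ (N + 1)) := fun h => (hφ (Nat.lt_succ_self N)).ne (hv h)
  simp only [lp.coeFn_sub, Pi.sub_apply, sg_apply, if_true, if_neg h3, sub_zero, norm_one] at h2
  exact absurd (h2.trans_lt h1) (lt_irrefl _)

theorem compact_of_rank {E : Type} [NormedAddCommGroup E] [NormedSpace ℂ E] (T : E →L[ℂ] E)
    (h : Module.finrank ℂ (LinearMap.range (T : E →ₗ[ℂ] E)) = 1) : IsCompactOperator T := by
  have : FiniteDimensional ℂ (LinearMap.range (T : E →ₗ[ℂ] E)) :=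
    Module.finite_of_finrank_eq_succ h
  have : LocallyCompactSpace (LinearMap.range (T : E →ₗ[ℂ] E)) :=
    .of_finiteDimensional_of_complete ℂ _
  have h1 := isCompactOperator_of_locallyCompactSpace_dom
    (T.codRestrict (LinearMap.range (T : E →ₗ[ℂ] E)) (fun x => ⟨x, rfl⟩))
  exact h1.clm_comp (LinearMap.range (T : E →ₗ[ℂ] E)).subtypeL

theorem mu_proj (x : X) : IsStarProjection (mu x x) := by
  constructor
  · show mu x x * mu x x = mu x x
    ext f y
    show mu x x (mu x x f) y = _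
    simp [mu_apply, sg_apply]
  · show star (mu x x) = mu x x
    apply ent_ext
    intro y y'
    rw [ent_star, ent_mu, ent_mu]
    by_cases h1 : y = x <;> by_cases h2 : y' = x <;> simp [h1, h2]

theorem mu_rank (x : X) :
    Module.finrank ℂ (LinearMap.range (mu x x : E2 X →ₗ[ℂ] E2 X)) = 1 := by
  have h0 : sg x ≠ 0 := by
    intro h
    have := norm_sg x
    rw [h] at this
    simp at this
  have : LinearMap.range (mu x x : E2 X →ₗ[ℂ] E2 X) = ℂ ∙ sg x := by
    apply le_antisymm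
    · rintro _ ⟨f, rfl⟩
      show mu x x f ∈ _
      rw [mu_apply]
      exact Submodule.smul_mem _ _ (Submodule.mem_span_singleton_self _)
    · rw [Submodule.span_singleton_le_iff_mem]
      refine ⟨sg x, ?_⟩
      show mu x x (sg x) = _
      rw [mu_apply, sg_apply, if_pos rfl, one_smul]
  rw [this, finrank_span_singleton h0]

/-- metric from a natural valued distance -/
@[reducible] noncomputable def mkMetric {α : Type} (d : α → α → ℕ) (h0 : ∀ x, d x x = 0) (hs : ∀ x y, d x y = d y x)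
    (ht : ∀ x y z, d x z ≤ d x y + d y z) (he : ∀ x y, d x y = 0 → x = y) : MetricSpace α where
  dist x y := d x y
  dist_self x := by simp [h0]
  dist_comm x y := by rw [hs]
  dist_triangle x y z := by exact_mod_cast ht x y z
  eq_of_dist_eq_zero h := he _ _ (by exact_mod_cast h)

end Pool.Agent.H.MP_42dd51_an
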