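import Pool.Agent.H.MP_42dd51_an.C

set_option autoImplicit false
open scoped Classical ComplexConjugate

namespace Pool.Agent.H.MP_42dd51_an

def w (k : ℕ) : ℕ := 2 ^ (4 ^ k)

theorem w_succ (k : ℕ) : w (k + 1) = w k ^ 4 := by
  unfold w
  rw [← pow_mul, pow_succ]

theorem w_gt (k : ℕ) : k + 1 < w k := by
  unfold w
  have h1 : k < 4 ^ k := Nat.lt_pow_self (by norm_num)
  have h2 : 4 ^ k < 2 ^ 4 ^ k := Nat.lt_two_pow_self
  omega

theorem w_dvd {i k : ℕ} (h : i ≤ k) : w i ∣ w k :=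
  pow_dvd_pow 2 (Nat.pow_le_pow_right (by norm_num) h)

theorem w_pos (k : ℕ) : 0 < w k := by have := w_gt k; omega

theorem w_mono {i k : ℕ} (h : i ≤ k) : w i ≤ w k := Nat.le_of_dvd (w_pos k) (w_dvd h)

def L (n : ℕ) : ℕ := w (3 * n + 2) ^ 3

theorem L_pos (n : ℕ) : 0 < L n := pow_pos (w_pos _) 3

theorem L_mono {n m : ℕ} (h : n ≤ m) : L n ≤ L m :=
  Nat.pow_le_pow_left (w_mono (by omega)) 3

theorem L_gt (n : ℕ) : n < L n := by
  have h1 := w_gt (3 * n + 2)
  have h2 : w (3 * n + 2) ≤ L n := Nat.le_self_pow (by norm_num) _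
  omega

theorem sq_dvd_L {n k : ℕ} (h : k ≤ 3 * n + 2) : w k ^ 2 ∣ L n :=
  (pow_dvd_pow_of_dvd (w_dvd h) 2).trans (pow_dvd_pow _ (by norm_num))

def cyc (P t t' : ℕ) : ℕ := min (t - t' + (t' - t)) (P - (t - t' + (t' - t)))

structure X where
  n : ℕ
  t : ℕ
  h : ℕ
  ht : t < 3 * L n
  hh : h = 0 ∨ (w (3 * n + t / L n) ∣ t ∧ h < w (3 * n + t / L n) ^ 2)

theorem X.ext' {x y : X} (h1 : x.n = y.n) (h2 : x.t = y.t) (h3 : x.h = y.h) : x = y := by
  cases x; cases y; simp_all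

theorem X.arc_lt (x : X) : x.t / L x.n < 3 := by
  rw [Nat.div_lt_iff_lt_mul (L_pos _)]; exact x.ht

def ty (x : X) : ℕ := 3 * x.n + x.t / L x.n

theorem X.h_lt (x : X) : x.h < L x.n := by
  rcases x.hh with h | ⟨_, h⟩
  · rw [h]; exact L_pos _
  · have := x.arc_lt
    exact h.trans_le (Nat.le_of_dvd (L_pos _) (sq_dvd_L (by omega)))

def dX (x x' : X) : ℕ := if x.n = x'.n then
  cyc (3 * L x.n) x.t x'.t + (x.h - x'.h + (x'.h - x.h)) else 7 * L x.n + 7 * L x'.n

def T (y : X × Bool) : ℕ := y.1.t + if y.2 then 3 * L y.1.n else 0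

theorem T_lt (y : X × Bool) : T y < 6 * L y.1.n := by
  have := y.1.ht
  unfold T; split_ifs <;> omega

def dY (y y' : X × Bool) : ℕ := if y.1.n = y'.1.n then
  cyc (6 * L y.1.n) (T y) (T y') + (y.1.h - y'.1.h + (y'.1.h - y.1.h))
  else 7 * L y.1.n + 7 * L y'.1.n

theorem cyc_tri {P t1 t2 t3 : ℕ} (a1 : t1 < P) (a2 : t2 < P) (a3 : t3 < P) :
    cyc P t1 t3 ≤ cyc P t1 t2 + cyc P t2 t3 := by
  unfold cyc
  have e : ∀ s t : ℕ, ∃ a, s - t + (t - s) = a ∧ (s = t + a ∨ t = s + a) := fun s t =>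
    ⟨_, rfl, by omega⟩
  obtain ⟨a, h1, h1'⟩ := e t1 t3
  obtain ⟨b, h2, h2'⟩ := e t1 t2
  obtain ⟨c, h3, h3'⟩ := e t2 t3
  rw [h1, h2, h3]
  clear h1 h2 h3 e
  rcases h1' with h1 | h1 <;> rcases h2' with h2 | h2 <;> rcases h3' with h3 | h3 <;> omega

theorem cyc_le (P t t' : ℕ) : cyc P t t' ≤ P := (min_le_right _ _).trans (Nat.sub_le _ _)

theorem gen_tri {n1 n2 n3 t1 t2 t3 h1 h2 h3 c : ℕ} (hc : c ≤ 6) (a1 : t1 < c * L n1)
    (a2 : t2 < c * L n2) (a3 : t3 < c * L n3) (b1 : h1 < L n1) (b3 : h3 < L n3) :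
    (if n1 = n3 then cyc (c * L n1) t1 t3 + (h1 - h3 + (h3 - h1)) else 7 * L n1 + 7 * L n3) ≤
    (if n1 = n2 then cyc (c * L n1) t1 t2 + (h1 - h2 + (h2 - h1)) else 7 * L n1 + 7 * L n2) +
    (if n2 = n3 then cyc (c * L n2) t2 t3 + (h2 - h3 + (h3 - h2)) else 7 * L n2 + 7 * L n3) := by
  have e : c * L n1 ≤ 6 * L n1 := Nat.mul_le_mul_right _ hc
  by_cases e1 : n1 = n3 <;> by_cases e2 : n1 = n2
  · subst e1; subst e2
    simp only [if_true]
    have := cyc_tri a1 a2 a3
    omega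
  · subst e1
    rw [if_pos rfl, if_neg e2, if_neg (Ne.symm e2)]
    have := cyc_le (c * L n1) t1 t3
    omega
  · subst e2
    rw [if_neg e1, if_pos rfl, if_neg e1]
    omega
  · rw [if_neg e1, if_neg e2]
    split_ifs with e3
    · subst e3; omega
    · omega

theorem dX_tri (x y z : X) : dX x z ≤ dX x y + dX y z :=
  gen_tri (by norm_num) x.ht y.ht z.ht x.h_lt z.h_lt

theorem dY_tri (x y z : X × Bool) : dY x z ≤ dY x y + dY y z :=
  gen_tri le_rfl (T_lt x) (T_lt y) (T_lt z) x.1.h_lt z.1.h_lt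

theorem dX_comm (x y : X) : dX x y = dX y x := by
  unfold dX
  by_cases h : x.n = y.n
  · rw [if_pos h, if_pos h.symm, h]; unfold cyc; omega
  · rw [if_neg h, if_neg (Ne.symm h)]; omega

theorem dY_comm (x y : X × Bool) : dY x y = dY y x := by
  unfold dY
  by_cases h : x.1.n = y.1.n
  · rw [if_pos h, if_pos h.symm, h]; unfold cyc; omega
  · rw [if_neg h, if_neg (Ne.symm h)]; omega

theorem dY_self (x : X × Bool) : dY x x = 0 := by simp [dY, cyc]

theorem code_inj {y y' : X × Bool} (h1 : y.1.n = y'.1.n) (h2 : T y = T y') (h3 : y.1.h = y'.1.h) :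
    y = y' := by
  obtain ⟨x, g⟩ := y
  obtain ⟨x', g'⟩ := y'
  have a1 := x.ht
  have a2 := x'.ht
  dsimp only at h1 h3
  unfold T at h2
  dsimp only at h2
  rw [← h1] at a2 h2
  cases g <;> cases g' <;> simp at h2
  · rw [X.ext' h1 h2 h3]
  · omega
  · omega
  · rw [X.ext' h1 h2 h3]

noncomputable instance : MetricSpace X := mkMetric dX (fun x => by simp [dX, cyc]) dX_comm dX_tri
  (fun x y => by
    unfold dX
    have a1 := x.ht
    have a2 := y.ht
    have a3 := L_pos x.n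
    split_ifs with h
    · intro h'
      rw [← h] at a2
      unfold cyc at h'
      exact X.ext' h (by omega) (by omega)
    · intro h'; omega)

def Y : Type := X × Bool

noncomputable instance : MetricSpace Y := mkMetric dY dY_self dY_comm dY_tri
  (fun x y => by
    unfold dY
    have a1 := T_lt x
    have a2 := T_lt y
    have a3 := L_pos x.1.n
    split_ifs with h
    · intro h'
      rw [← h] at a2
      unfold cyc at h'
      exact code_inj h (by omega) (by omega)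
    · intro h'; omega)

theorem distX (x y : X) : dist x y = (dX x y : ℝ) := rfl
theorem distY (x y : Y) : dist x y = (dY x y : ℝ) := rfl

def I (P t R : ℕ) : Finset ℕ :=
  Finset.Icc (t - R) (t + R) ∪ Finset.Icc 0 R ∪ Finset.Icc (P - R) P

theorem I_card (P t R : ℕ) : (I P t R).card ≤ 4 * R + 3 := by
  unfold I
  refine (Finset.card_union_le _ _).trans ?_
  refine (Nat.add_le_add_right (Finset.card_union_le _ _) _).trans ?_
  simp only [Nat.card_Icc]
  omega

theorem mem_I {P t t' R : ℕ} (h1 : t < P) (h2 : t' < P) (h : cyc P t t' ≤ R) : t' ∈ I P t R := by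
  unfold cyc at h
  simp only [I, Finset.mem_union, Finset.mem_Icc]
  omega

theorem I_dvd (P t R d : ℕ) (h : 2 * R < d) : ((I P t R).filter (d ∣ ·)).card ≤ 3 := by
  have key : ∀ a b : ℕ, b ≤ a + 2 * R → ((Finset.Icc a b).filter (d ∣ ·)).card ≤ 1 := by
    intro a b hab
    rw [Finset.card_le_one]
    intro x hx y hy
    simp only [Finset.mem_filter, Finset.mem_Icc] at hx hy
    have h1 : x - y = 0 := Nat.eq_zero_of_dvd_of_lt (Nat.dvd_sub hx.2 hy.2) (by omega)
    have h2 : y - x = 0 := Nat.eq_zero_of_dvd_of_lt (Nat.dvd_sub hy.2 hx.2) (by omega)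
    omega
  unfold I
  rw [Finset.filter_union, Finset.filter_union]
  refine (Finset.card_union_le _ _).trans ?_
  refine (Nat.add_le_add_right (Finset.card_union_le _ _) _).trans ?_
  have a1 := key (t - R) (t + R) (by omega)
  have a2 := key 0 R (by omega)
  have a3 := key (P - R) P (by omega)
  omega

theorem dX_le (y y' : X × Bool) : dX y.1 y'.1 ≤ dY y y' := by
  unfold dX dY
  split_ifs with h
  · have a1 := y.1.ht
    have a2 := y'.1.ht
    unfold T
    rw [← h] at a2 ⊢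
    unfold cyc
    split_ifs <;> omega
  · exact le_rfl

theorem ballX (r : ℝ) : ∃ C : ℕ, ∀ x : X, ∃ s : Finset X, s.card ≤ C ∧
    ∀ x', dist x x' ≤ r → x' ∈ s := by
  obtain ⟨R, hR⟩ := exists_nat_ge r
  have hinj : Function.Injective (fun x : X => (x.n, x.t, x.h)) := fun x y h => by
    simp only [Prod.mk.injEq] at h
    exact X.ext' h.1 h.2.1 h.2.2
  refine ⟨R * (R * R) + (4 * R + 3) * (2 * R + 1), fun x =>
    ⟨(Finset.range R ×ˢ Finset.range R ×ˢ Finset.range R ∪
      {x.n} ×ˢ I (3 * L x.n) x.t R ×ˢ Finset.Icc (x.h - R) (x.h + R)).preimage _ hinj.injOn,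
      ?_, fun x' h => ?_⟩⟩
  · refine (Finset.card_le_card_of_injOn _ (fun a ha => Finset.mem_preimage.1 ha)
      hinj.injOn).trans ?_
    refine (Finset.card_union_le _ _).trans ?_
    simp only [Finset.card_product, Finset.card_range, Finset.card_singleton, Nat.card_Icc, one_mul]
    exact Nat.add_le_add_left (Nat.mul_le_mul (I_card _ _ _) (by omega)) _
  · rw [distX] at h
    have h2 : dX x x' ≤ R := by exact_mod_cast h.trans hR
    unfold dX at h2
    simp only [Finset.mem_preimage, Finset.mem_union, Finset.mem_product, Finset.mem_range,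
      Finset.mem_singleton, Finset.mem_Icc]
    have a1 := x'.ht
    have a2 := x'.h_lt
    have a3 := L_gt x'.n
    split_ifs at h2 with h3
    · right
      exact ⟨h3.symm, mem_I x.ht (h3 ▸ a1) (by omega), by omega, by omega⟩
    · left
      omega

theorem ballY (r : ℝ) : ∃ C : ℕ, ∀ x : Y, ∃ s : Finset Y, s.card ≤ C ∧
    ∀ x', dist x x' ≤ r → x' ∈ s := by
  obtain ⟨C, hC⟩ := ballX r
  refine ⟨C * 2, fun y => ?_⟩
  obtain ⟨s, hs, hs'⟩ := hC y.1
  refine ⟨(s ×ˢ (Finset.univ : Finset Bool) : Finset (X × Bool)), ?_, fun y' h => ?_⟩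
  · have : (s ×ˢ (Finset.univ : Finset Bool)).card ≤ C * 2 := by
      rw [Finset.card_product]; simpa using hs
    exact this
  · refine Finset.mem_product.2 ⟨hs' _ (le_trans ?_ h), Finset.mem_univ _⟩
    rw [distX, distY]
    exact_mod_cast dX_le y y'

noncomputable def z (x : X) : ℂ := Complex.exp (Complex.I * (Real.pi * x.t / (3 * L x.n) : ℝ))

theorem hz (x : X) : ‖z x‖ = 1 := Complex.norm_exp_I_mul_ofReal _

theorem z_mul (x x' : X) (h : x.n = x'.n) : z x * conj (z x') =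
    Complex.exp (Complex.I * (Real.pi * ((x.t : ℝ) - x'.t) / (3 * L x.n) : ℝ)) := by
  unfold z
  rw [← Complex.exp_conj, ← Complex.exp_add, ← h]
  congr 1
  simp only [map_mul, Complex.conj_I, Complex.conj_ofReal]
  push_cast
  ring

theorem near_le (θ : ℝ) : ‖(1 - Complex.exp (Complex.I * θ)) / 2‖ ≤ |θ| := by
  have := Real.norm_exp_I_mul_ofReal_sub_one_le (x := θ)
  rw [norm_div, norm_sub_rev]
  simp only [Complex.norm_ofNat, Real.norm_eq_abs] at *
  linarith [abs_nonneg θ]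

theorem far_le (θ : ℝ) : ‖(1 + Complex.exp (Complex.I * θ)) / 2‖ ≤ |θ - Real.pi| ∧
    ‖(1 + Complex.exp (Complex.I * θ)) / 2‖ ≤ |θ + Real.pi| := by
  constructor
  · convert near_le (θ - Real.pi) using 3
    push_cast
    rw [mul_sub, Complex.exp_sub, mul_comm Complex.I Real.pi, Complex.exp_pi_mul_I]
    ring
  · convert near_le (θ + Real.pi) using 3
    push_cast
    rw [mul_add, Complex.exp_add, mul_comm Complex.I Real.pi, Complex.exp_pi_mul_I]
    ring

theorem hd (r e : ℝ) (he : 0 < e) : ∃ s : ℝ, ∀ y y' : X × Bool, dist y.1 y'.1 ≤ r →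
    (dY y y' : ℝ) ≤ s ∨ ‖cf (fun _ g => !g) z y y'‖ ≤ e := by
  obtain ⟨R, hR⟩ := exists_nat_ge r
  obtain ⟨N, hN⟩ := exists_nat_ge (Real.pi * R / e)
  refine ⟨(R + 7 * L N : ℕ), ?_⟩
  rintro ⟨x, g⟩ ⟨x', g'⟩ h
  rw [distX] at h
  have h2 : dX x x' ≤ R := by exact_mod_cast h.trans hR
  by_cases hY : dY (x, g) (x', g') ≤ R + 7 * L N
  · left; exact_mod_cast hY
  right
  have a1 := x.ht
  have a2 := x'.ht
  have a3 := x.h_lt
  have a4 := x'.h_lt
  unfold dX at h2
  unfold dY T at hY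
  dsimp only at hY
  by_cases hn : x.n = x'.n
  swap
  · rw [if_neg hn] at h2 hY; omega
  rw [if_pos hn] at h2 hY
  rw [← hn] at a2 a4 hY
  unfold cyc at h2 hY
  have hL : N ≤ L x.n := by
    by_contra! hh
    have := L_gt N
    split_ifs at hY <;> omega
  have hL' : (N : ℝ) ≤ L x.n := by exact_mod_cast hL
  have hLp : (0 : ℝ) < L x.n := by exact_mod_cast L_pos x.n
  have small : ∀ u : ℝ, |u| ≤ R → |Real.pi * u / (3 * L x.n)| ≤ e := by
    intro u hu
    rw [abs_div, abs_mul, abs_of_pos Real.pi_pos, abs_of_pos (by positivity : (0 : ℝ) < 3 * L x.n),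
      div_le_iff₀ (by positivity)]
    rw [div_le_iff₀ he] at hN
    have := mul_le_mul_of_nonneg_left hu Real.pi_pos.le
    nlinarith
  have hzz := z_mul x x' hn
  by_cases hg : g = g'
  · subst hg
    have e1 : cf (fun _ g => !g) z (x, g) (x', g) = (1 + z x * conj (z x')) / 2 := by
      unfold cf
      cases g <;> simp <;> ring
    rw [e1, hzz]
    have : x'.t + 3 * L x.n ≤ x.t + R ∨ x.t + 3 * L x.n ≤ x'.t + R := by
      split_ifs at hY <;> omega
    rcases this with h3 | h3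
    · refine (far_le _).1.trans (le_of_eq_of_le ?_ (small (x.t - x'.t - 3 * L x.n) ?_))
      · congr 1; field_simp
      · have b1 : ((x'.t + 3 * L x.n : ℕ) : ℝ) ≤ ((x.t + R : ℕ) : ℝ) := by exact_mod_cast h3
        have b2 : (x.t : ℝ) ≤ ((3 * L x.n : ℕ) : ℝ) := by exact_mod_cast a1.le
        push_cast at b1 b2
        rw [abs_le]
        constructor <;> linarith [Nat.cast_nonneg (α := ℝ) x'.t, Nat.cast_nonneg (α := ℝ) R]
    · refine (far_le _).2.trans (le_of_eq_of_le ?_ (small (x.t - x'.t + 3 * L x.n) ?_))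
      · congr 1; field_simp
      · have b1 : ((x.t + 3 * L x.n : ℕ) : ℝ) ≤ ((x'.t + R : ℕ) : ℝ) := by exact_mod_cast h3
        have b2 : (x'.t : ℝ) ≤ ((3 * L x.n : ℕ) : ℝ) := by exact_mod_cast a2.le
        push_cast at b1 b2
        rw [abs_le]
        constructor <;> linarith [Nat.cast_nonneg (α := ℝ) x.t, Nat.cast_nonneg (α := ℝ) R]
  · have e1 : cf (fun _ g => !g) z (x, g) (x', g') = (1 - z x * conj (z x')) / 2 := by
      unfold cf
      cases g <;> cases g' <;> simp at hg ⊢ <;> ring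
    rw [e1, hzz]
    have : x.t ≤ x'.t + R ∧ x'.t ≤ x.t + R := by
      cases g <;> cases g' <;> simp at hg hY <;> omega
    refine (near_le _).trans (small _ ?_)
    have b1 : (x.t : ℝ) ≤ ((x'.t + R : ℕ) : ℝ) := by exact_mod_cast this.1
    have b2 : (x'.t : ℝ) ≤ ((x.t + R : ℕ) : ℝ) := by exact_mod_cast this.2
    push_cast at b1 b2
    rw [abs_le]
    constructor <;> linarith

end Pool.Agent.H.MP_42dd51_an
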