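import Pool.Agent.H.MP_42dd51_an.D

set_option autoImplicit false
open scoped Classical

namespace Pool.Agent.H.MP_42dd51_an

theorem vol (n k R : ℕ) (hn : 1 ≤ n) (hk : 3 * n ≤ k) (hR1 : 2 * R < w (k + 1))
    (hR2 : R < 7 * L n) (y : X × Bool) (s : Finset (X × Bool)) (hs : ∀ y' ∈ s, dY y y' ≤ R)
    (hty : ∀ y' ∈ s, ty y'.1 ≠ k) :
    s.card ≤ n * (6 * w (k - 1) ^ 3 * w (k - 1) ^ 3) +
      ((4 * R + 3) * w (k - 1) ^ 2 + 3 * (2 * R + 1)) := by
  have hinj : Function.Injective (fun y : X × Bool => (y.1.n, T y, y.1.h)) := fun a b h => by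
    simp only [Prod.mk.injEq] at h
    exact code_inj h.1 h.2.1 h.2.2
  have hsub : ∀ y' ∈ s, (y'.1.n, T y', y'.1.h) ∈
      Finset.range n ×ˢ Finset.range (6 * w (k - 1) ^ 3) ×ˢ Finset.range (w (k - 1) ^ 3) ∪
      {y.1.n} ×ˢ (I (6 * L y.1.n) (T y) R ×ˢ Finset.range (w (k - 1) ^ 2) ∪
        (I (6 * L y.1.n) (T y) R).filter (w (k + 1) ∣ ·) ×ˢ
          Finset.Icc (y.1.h - R) (y.1.h + R)) := by
    intro y' hy'
    have h1 := hs y' hy'
    have h2 := hty y' hy'
    have a1 := T_lt y'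
    have a2 := y'.1.h_lt
    have a3 := y'.1.arc_lt
    simp only [Finset.mem_union, Finset.mem_product, Finset.mem_range, Finset.mem_singleton,
      Finset.mem_filter, Finset.mem_Icc]
    by_cases hlt : y'.1.n < n
    · left
      have : L y'.1.n ≤ w (k - 1) ^ 3 := Nat.pow_le_pow_left (w_mono (by omega)) 3
      omega
    · right
      have hL := L_mono (not_lt.1 hlt)
      unfold dY at h1
      split_ifs at h1 with h3
      swap
      · omega
      have hI : T y' ∈ I (6 * L y.1.n) (T y) R := mem_I (T_lt y) (h3 ▸ a1) (by omega)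
      refine ⟨h3.symm, ?_⟩
      have hp : 0 < w (k - 1) ^ 2 := pow_pos (w_pos _) 2
      rcases y'.1.hh with h4 | ⟨h4, h5⟩
      · left; exact ⟨hI, by omega⟩
      · unfold ty at h2
        rcases lt_or_gt_of_ne h2 with h6 | h6
        · left
          exact ⟨hI, h5.trans_le (Nat.pow_le_pow_left (w_mono (by omega)) 2)⟩
        · right
          refine ⟨⟨hI, ?_⟩, by omega, by omega⟩
          have b1 : w (k + 1) ∣ y'.1.t := (w_dvd h6).trans h4
          have b2 : w (k + 1) ∣ L y'.1.n :=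
            (Dvd.intro _ (sq (w (k + 1))).symm).trans (sq_dvd_L (by omega))
          unfold T
          split_ifs
          · exact dvd_add b1 (b2.mul_left 3)
          · simpa using b1
  refine (Finset.card_le_card_of_injOn _ hsub hinj.injOn).trans ?_
  refine (Finset.card_union_le _ _).trans ?_
  simp only [Finset.card_product, Finset.card_range, Finset.card_singleton, one_mul]
  refine Nat.add_le_add_left ((Finset.card_union_le _ _).trans ?_) _
  simp only [Finset.card_product, Finset.card_range, Nat.card_Icc]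
  exact Nat.add_le_add (Nat.mul_le_mul_right _ (I_card _ _ _))
    (Nat.mul_le_mul (I_dvd _ _ _ _ hR1) (by omega))

theorem spine {f : X → X × Bool} {K : ℕ} (hf : ∀ x x', dX x x' ≤ 1 → dY (f x) (f x') ≤ K)
    (i : ℕ) : ∀ x x' : X, x.n = x'.n → x.h = 0 → x'.h = 0 → x'.t = x.t + i →
      dY (f x) (f x') ≤ K * i := by
  induction i with
  | zero =>
    intro x x' h1 h2 h3 h4
    rw [X.ext' h1 h4.symm (h2.trans h3.symm), dY_self]
    exact Nat.zero_le _
  | succ i ih =>
    intro x x' h1 h2 h3 h4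
    have a := x'.ht
    rw [← h1] at a
    let u : X := ⟨x.n, x.t + i, 0, by omega, Or.inl rfl⟩
    have b1 := ih x u rfl h2 rfl rfl
    have b2 := hf u x' (by
      unfold dX cyc
      simp only [u, if_pos h1]
      omega)
    have := dY_tri (f x) (f u) (f x')
    rw [mul_add]
    omega

theorem tooth {f : X → X × Bool} {K : ℕ} (hf : ∀ x x', dX x x' ≤ 1 → dY (f x) (f x') ≤ K)
    (i : ℕ) : ∀ x x' : X, x.n = x'.n → x.t = x'.t → x.h = 0 → x'.h = i →
      dY (f x) (f x') ≤ K * i := by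
  induction i with
  | zero =>
    intro x x' h1 h2 h3 h4
    rw [X.ext' h1 h2 (h3.trans h4.symm), dY_self]
    exact Nat.zero_le _
  | succ i ih =>
    intro x x' h1 h2 h3 h4
    let u : X := ⟨x'.n, x'.t, i, x'.ht, by
      rcases x'.hh with h | ⟨h, h'⟩
      · omega
      · exact Or.inr ⟨h, by omega⟩⟩
    have b1 := ih x u h1 h2 h3 rfl
    have b2 := hf u x' (by
      unfold dX cyc
      simp only [u, if_true]
      omega)
    have := dY_tri (f x) (f u) (f x')
    rw [mul_add]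
    omega

theorem many (x : X) : ∃ q : Fin (w (ty x)) × Fin (w (ty x) ^ 2) → X, Function.Injective q ∧
    ∀ a, (q a).n = x.n ∧ (q a).t ≤ x.t + w (ty x) ^ 2 ∧ x.t ≤ (q a).t + w (ty x) ^ 2 ∧
      (q a).h < w (ty x) ^ 2 := by
  obtain ⟨W, hW⟩ : ∃ W, W = w (ty x) := ⟨_, rfl⟩
  have hp : 0 < W := hW ▸ w_pos _
  have hp2 : 0 < W ^ 2 := pow_pos hp 2
  have ha := x.arc_lt
  obtain ⟨c, hc⟩ : W ^ 2 ∣ L x.n := hW ▸ sq_dvd_L (by unfold ty; omega)
  have e0 : ∀ i : ℕ, i < W → i * W < W ^ 2 := fun i hi => by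
    rw [sq]; exact Nat.mul_lt_mul_of_pos_right hi hp
  have e1 : ∀ i : ℕ, i < W → (x.t / W ^ 2 * W ^ 2 + i * W) / L x.n = x.t / L x.n := by
    intro i hi
    rw [hc, ← Nat.div_div_eq_div_mul, ← Nat.div_div_eq_div_mul, add_comm,
      Nat.add_mul_div_right _ _ hp2, Nat.div_eq_of_lt (e0 i hi), zero_add]
  rw [← hW]
  refine ⟨fun a => ⟨x.n, x.t / W ^ 2 * W ^ 2 + a.1 * W, a.2, ?_, Or.inr ?_⟩, ?_, fun a => ?_⟩
  · rw [← Nat.div_lt_iff_lt_mul (L_pos _), e1 _ a.1.2]; exact ha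
  · rw [e1 _ a.1.2]
    have : w (3 * x.n + x.t / L x.n) = W := hW.symm
    rw [this]
    exact ⟨dvd_add (Dvd.dvd.mul_left (Dvd.intro _ (sq W).symm) _) (Dvd.intro_left _ rfl), a.2.2⟩
  · intro a b h
    simp only [X.mk.injEq, true_and, add_right_inj] at h
    exact Prod.ext (Fin.ext (Nat.eq_of_mul_eq_mul_right hp h.1)) (Fin.ext h.2)
  · have b1 := Nat.div_mul_le_self x.t (W ^ 2)
    have b2 := Nat.lt_div_mul_add (a := x.t) hp2
    have b3 := e0 _ a.1.2
    exact ⟨rfl, by dsimp only; omega, by dsimp only; omega, a.2.2⟩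

theorem arith (K M n v : ℕ) (h1 : n ≤ v) (h2 : 50 * (K + 1) * (M + 1) ≤ v) :
    M * (n * (6 * v ^ 3 * v ^ 3) + ((4 * (2 * K * (v ^ 4) ^ 2) + 3) * v ^ 2 +
      3 * (2 * (2 * K * (v ^ 4) ^ 2) + 1))) < v ^ 4 * (v ^ 4) ^ 2 := by
  have hv : 1 ≤ v := by nlinarith [Nat.zero_le K, Nat.zero_le M]
  have p : ∀ a b : ℕ, a ≤ b → v ^ a ≤ v ^ b := fun a b h => Nat.pow_le_pow_right hv h
  have a1 : n * (6 * v ^ 3 * v ^ 3) ≤ 6 * v ^ 10 := by
    calc _ ≤ v * (6 * v ^ 3 * v ^ 3) := Nat.mul_le_mul_right _ h1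
      _ = 6 * v ^ 7 := by ring
      _ ≤ _ := Nat.mul_le_mul_left _ (p 7 10 (by norm_num))
  have a2 : (4 * (2 * K * (v ^ 4) ^ 2) + 3) * v ^ 2 + 3 * (2 * (2 * K * (v ^ 4) ^ 2) + 1) ≤
      (20 * K + 6) * v ^ 10 := by
    have b1 := Nat.mul_le_mul_left K (p 8 10 (by norm_num))
    have b2 := p 2 10 (by norm_num)
    have b3 := p 0 10 (by norm_num)
    nlinarith
  have a3 : M * (20 * K + 12) < v := by nlinarith [Nat.zero_le K, Nat.zero_le M]
  have a4 : 0 < v ^ 10 := pow_pos hv 10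
  calc _ ≤ M * ((20 * K + 12) * v ^ 10) := Nat.mul_le_mul_left _ (by nlinarith)
    _ = (M * (20 * K + 12)) * v ^ 10 := by ring
    _ < v * v ^ 10 := Nat.mul_lt_mul_of_pos_right a3 a4
    _ = v ^ 11 := by ring
    _ ≤ v ^ 12 := p 11 12 (by norm_num)
    _ = _ := by ring

theorem typed {f : X → X × Bool} {K M : ℕ} (hf : ∀ x x', dX x x' ≤ 1 → dY (f x) (f x') ≤ K)
    (hM : ∀ (y : X × Bool) (s : Finset X), (∀ x ∈ s, f x = y) → s.card ≤ M) (x : X)
    (hx : x.h = 0) (hn : 50 * (K + 1) * (M + 1) ≤ x.n) :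
    ∃ y', dY (f x) y' ≤ 2 * K * w (ty x) ^ 2 ∧ ty y'.1 = ty x := by
  by_contra! hne
  obtain ⟨q, hq, hq'⟩ := many x
  have hn1 : 1 ≤ x.n := by nlinarith [Nat.zero_le K, Nat.zero_le M]
  have hK : 50 * (K + 1) ≤ x.n := by nlinarith [Nat.zero_le K, Nat.zero_le M]
  have ha := x.arc_lt
  have hk : 3 * x.n ≤ ty x := Nat.le_add_right _ _
  have hW := w_gt (ty x)
  have hd : ∀ a, dY (f x) (f (q a)) ≤ 2 * K * w (ty x) ^ 2 := by
    intro a
    obtain ⟨h1, h2, h3, h4⟩ := hq' a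
    let u : X := ⟨(q a).n, (q a).t, 0, (q a).ht, Or.inl rfl⟩
    have b1 : dY (f x) (f u) ≤ K * w (ty x) ^ 2 := by
      rcases le_total x.t u.t with h | h
      · refine (spine hf (u.t - x.t) x u h1.symm hx rfl (by omega)).trans
          (Nat.mul_le_mul_left _ ?_)
        simp only [u]; omega
      · rw [dY_comm]
        refine (spine hf (x.t - u.t) u x h1 rfl hx (by omega)).trans
          (Nat.mul_le_mul_left _ ?_)
        simp only [u]; omega
    have b2 : dY (f u) (f (q a)) ≤ K * w (ty x) ^ 2 :=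
      (tooth hf _ u (q a) rfl rfl rfl rfl).trans (Nat.mul_le_mul_left _ h4.le)
    have := dY_tri (f x) (f u) (f (q a))
    nlinarith
  have hv := vol x.n (ty x) (2 * K * w (ty x) ^ 2) hn1 hk (by
      rw [w_succ]
      have : 4 * K < w (ty x) ^ 2 := by nlinarith
      have h0 : 0 < w (ty x) ^ 2 := by omega
      calc _ = (4 * K) * w (ty x) ^ 2 := by ring
        _ < w (ty x) ^ 2 * w (ty x) ^ 2 := Nat.mul_lt_mul_of_pos_right this h0
        _ = _ := by ring) (by
      have b1 : w (ty x) ≤ w (3 * x.n + 2) := w_mono (by unfold ty; omega)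
      have h0 : 0 < w (ty x) ^ 2 := pow_pos (w_pos _) 2
      calc _ < w (ty x) * w (ty x) ^ 2 := Nat.mul_lt_mul_of_pos_right (by omega) h0
        _ = w (ty x) ^ 3 := by ring
        _ ≤ L x.n := Nat.pow_le_pow_left b1 3
        _ ≤ _ := by omega) (f x) (Finset.univ.image (fun a => f (q a)))
    (by
      intro y' hy'
      obtain ⟨a, _, rfl⟩ := Finset.mem_image.1 hy'
      exact hd a)
    (by
      intro y' hy'
      obtain ⟨a, _, rfl⟩ := Finset.mem_image.1 hy'
      exact hne _ (hd a))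
  have hc := Finset.card_le_mul_card_image (f := fun a => f (q a)) Finset.univ M (by
    intro y _
    rw [← Finset.card_image_of_injective _ hq]
    apply hM y
    intro x' hx'
    obtain ⟨a, ha, rfl⟩ := Finset.mem_image.1 hx'
    exact (Finset.mem_filter.1 ha).2)
  simp only [Finset.card_univ, Fintype.card_prod, Fintype.card_fin] at hc
  have hw : w (ty x) = w (ty x - 1) ^ 4 := by
    rw [← w_succ]; congr 1; omega
  have hg := w_gt (ty x - 1)
  have := arith K M x.n (w (ty x - 1)) (by omega) (by omega)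
  rw [← hw] at this
  exact absurd (hc.trans (Nat.mul_le_mul_left _ hv)) (not_le.2 this)

theorem adj {l t t' : ℕ} (hl : 0 < l) (h1 : t < 6 * l) (h2 : t' < 6 * l) (h : cyc (6 * l) t t' < l) :
    t' / l = t / l ∨ t' / l = (t / l + 1) % 6 ∨ t / l = (t' / l + 1) % 6 := by
  have a1 := Nat.div_mul_le_self t l
  have a2 := Nat.lt_div_mul_add (a := t) hl
  have a3 := Nat.div_mul_le_self t' l
  have a4 := Nat.lt_div_mul_add (a := t') hl
  have a5 : t / l < 6 := (Nat.div_lt_iff_lt_mul hl).2 h1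
  have a6 : t' / l < 6 := (Nat.div_lt_iff_lt_mul hl).2 h2
  unfold cyc at h
  generalize t / l = a at *
  generalize t' / l = b at *
  interval_cases a <;> interval_cases b <;> omega

theorem T_arc (y : X × Bool) : T y / L y.1.n % 3 = y.1.t / L y.1.n := by
  have := y.1.arc_lt
  have := Nat.zero_le (y.1.t / L y.1.n)
  unfold T
  split_ifs
  · rw [Nat.add_mul_div_right _ _ (L_pos _)]; omega
  · rw [add_zero]; omega

theorem no_map (f : X → X × Bool) (K M : ℕ) (hf : ∀ x x', dX x x' ≤ 1 → dY (f x) (f x') ≤ K)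
    (hM : ∀ (y : X × Bool) (s : Finset X), (∀ x ∈ s, f x = y) → s.card ≤ M) : False := by
  obtain ⟨n, hn⟩ : ∃ n, n = 50 * (K + 1) * (M + 1) := ⟨_, rfl⟩
  have hK : 50 * (K + 1) ≤ n := by nlinarith [Nat.zero_le K, Nat.zero_le M]
  have hl := L_pos n
  let sp : Fin (3 * L n) → X := fun t => ⟨n, t, 0, t.2, Or.inl rfl⟩
  have h1 := fun t => typed hf hM (sp t) rfl hn.ge
  choose g hg hg' using h1
  have hR : ∀ t, 4 * (2 * K * w (ty (sp t)) ^ 2) < L n := by
    intro t
    have ha := (sp t).arc_lt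
    have b1 : w (ty (sp t)) ≤ w (3 * n + 2) := w_mono (by unfold ty; simp only [sp] at *; omega)
    have b2 := w_gt (3 * n + 2)
    have h0 : 0 < w (3 * n + 2) ^ 2 := pow_pos (w_pos _) 2
    calc _ = (8 * K) * w (ty (sp t)) ^ 2 := by ring
      _ ≤ (8 * K) * w (3 * n + 2) ^ 2 := Nat.mul_le_mul_left _ (Nat.pow_le_pow_left b1 2)
      _ < w (3 * n + 2) * w (3 * n + 2) ^ 2 := Nat.mul_lt_mul_of_pos_right (by omega) h0
      _ = _ := by unfold L; ring
  have hKL := L_gt n
  have hgn : ∀ t, (g t).1.n = n ∧ (g t).1.t / L (g t).1.n = t / L n := by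
    intro t
    have a1 := hg' t
    have a2 := (g t).1.arc_lt
    have a3 := (sp t).arc_lt
    unfold ty at a1
    simp only [sp] at a1 a3
    have := Nat.zero_le ((g t).1.t / L (g t).1.n)
    have := Nat.zero_le (t / L n)
    omega
  have hT : ∀ t, T (g t) < 6 * L n := fun t => (hgn t).1 ▸ T_lt (g t)
  have harc : ∀ t, T (g t) / L n % 3 = t / L n := by
    intro t
    have := T_arc (g t)
    rw [(hgn t).2, (hgn t).1] at this
    exact this
  have hadj : ∀ t t', dX (sp t) (sp t') ≤ 1 → cyc (6 * L n) (T (g t)) (T (g t')) < L n := by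
    intro t t' h
    have a1 := hf _ _ h
    have a2 := hg t
    have a3 := hg t'
    have a4 := hR t
    have a5 := hR t'
    have a6 := dY_tri (g t) (f (sp t)) (g t')
    have a7 := dY_tri (f (sp t)) (f (sp t')) (g t')
    rw [dY_comm] at a2
    have a8 : dY (g t) (g t') < L n := by omega
    unfold dY at a8
    rw [if_pos ((hgn t).1.trans (hgn t').1.symm), (hgn t).1] at a8
    omega
  have h6 : ∀ t, T (g t) / L n < 6 := fun t => (Nat.div_lt_iff_lt_mul hl).2 (hT t)
  have key : ∀ i (hi : i < 3 * L n),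
      T (g ⟨i, hi⟩) / L n = (T (g ⟨0, by omega⟩) / L n + i / L n) % 6 := by
    intro i
    induction i with
    | zero =>
      intro hi
      rw [Nat.zero_div, add_zero, Nat.mod_eq_of_lt (h6 ⟨0, hi⟩)]
    | succ i ih =>
      intro hi
      have a1 := ih (by omega)
      have a2 := adj hl (hT _) (hT _) (hadj ⟨i, by omega⟩ ⟨i + 1, hi⟩ (by
        unfold dX cyc
        simp only [sp, if_true]
        omega))
      have a3 := harc ⟨i, by omega⟩
      have a4 := harc ⟨i + 1, hi⟩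
      have a5 := h6 ⟨i, by omega⟩
      have a6 := h6 ⟨i + 1, hi⟩
      have a7 : (i + 1) / L n = i / L n ∨ (i + 1) / L n = i / L n + 1 := by
        rw [Nat.succ_div]; split_ifs <;> simp
      dsimp only at a3 a4
      omega
  have a1 := key (3 * L n - 1) (by omega)
  have a2 := adj hl (hT _) (hT _) (hadj ⟨3 * L n - 1, by omega⟩ ⟨0, by omega⟩ (by
    unfold dX cyc
    simp only [sp, if_true]
    omega))
  have a3 : (3 * L n - 1) / L n = 2 := by
    rw [Nat.div_eq_iff hl]; omega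
  have a4 := h6 ⟨0, by omega⟩
  omega

theorem no_map' (f : X → Y) (s : ℝ) (hf : ∀ x x' : X, dist x x' ≤ 1 → dist (f x) (f x') ≤ s)
    (M : ℕ) (hM : ∀ y : Y, (f ⁻¹' {y}).encard ≤ (M : ℕ∞)) : False := by
  obtain ⟨K, hK⟩ := exists_nat_ge s
  refine no_map f K M (fun x x' h => ?_) (fun y t ht => ?_)
  · have := (hf x x' (by rw [distX]; exact_mod_cast h)).trans hK
    rw [distY] at this
    exact_mod_cast this
  · have h1 : (t : Set X) ⊆ f ⁻¹' {y} := fun x hx => ht x hx
    have h2 := (Set.encard_le_encard h1).trans (hM y)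
    rw [Set.encard_coe_eq_coe_finsetCard] at h2
    exact_mod_cast h2

theorem ulf_of {Z : Type} [MetricSpace Z] (h : ∀ r : ℝ, ∃ C : ℕ, ∀ x : Z, ∃ s : Finset Z,
    s.card ≤ C ∧ ∀ x', dist x x' ≤ r → x' ∈ s) (r : ℝ) :
    ∃ N : ℕ, ∀ x : Z, (Metric.closedBall x r).encard ≤ (N : ℕ∞) := by
  obtain ⟨C, hC⟩ := h r
  refine ⟨C, fun x => ?_⟩
  obtain ⟨s, hs, hs'⟩ := hC x
  have : Metric.closedBall x r ⊆ (s : Set Z) := fun y hy => hs' y (by rwa [dist_comm])
  refine (Set.encard_le_encard this).trans ?_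
  rw [Set.encard_coe_eq_coe_finsetCard]
  exact_mod_cast hs

theorem exists_Phi : ∃ U : E2 (X × Bool) →L[ℂ] E2 (X × Bool), star U * U = 1 ∧
    ∀ a ∈ FPs X dist, Phi U a ∈ closure (FPs (X × Bool) (fun y y' => (dY y y' : ℝ))) := by
  have hσ : ∀ (_ : X) (g : Bool), (!(!g)) = g := fun _ g => Bool.not_not g
  obtain ⟨U, hU⟩ := exists_U (fun _ g => !g) hσ z hz
  refine ⟨U, hU.star_mul hσ hz, fun a ha => ?_⟩
  obtain ⟨r, hr⟩ := ha
  exact approx hσ hz hU ballX _ hd a r hr

end Pool.Agent.H.MP_42dd51_an
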